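import Pool.Agent.Q118.NC.Terms2

/-!
# From block triangular to triangular matrices
-/

set_option autoImplicit false

namespace Pool.Agent.Q118.NC

open Matrix

variable {K : Type*} [Field K] {σ : Type*}

theorem ev_map {R S : Type*} [Ring R] [Algebra K R] [Ring S] [Algebra K S] (φ : R →ₐ[K] S)
    (X : σ → R) (F : List σ →₀ K) : φ (ev X F) = ev (fun v => φ (X v)) F := by
  induction F using Finsupp.induction_linear with
  | zero => simp
  | add F G hF hG => rw [map_add, map_add, hF, hG, map_add]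
  | single w c =>
    rw [ev_single, ev_single, map_smul, map_list_prod, List.map_map]
    rfl

theorem J_of_upper {N : ℕ} {F : List σ →₀ K}
    (h : ∀ (A : σ → Matrix (Fin 1) (Fin 1) K) (A' : σ → Matrix (Fin N) (Fin N) K)
      (B : σ → Matrix (Fin 1) (Fin N) K),
      ev (fun i => Matrix.fromBlocks (A i) (B i) 0 (A' i)) F = 0) : J (1 + N) F := by
  intro X hX
  let φ : Matrix (Fin (1 + N)) (Fin (1 + N)) K ≃ₐ[K]
      Matrix (Fin 1 ⊕ Fin N) (Fin 1 ⊕ Fin N) K :=
    Matrix.reindexAlgEquiv K K (finSumFinEquiv (m := 1) (n := N)).symm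
  have hφ : ∀ M i j, φ M i j = M (finSumFinEquiv i) (finSumFinEquiv j) := fun _ _ _ => rfl
  apply φ.injective
  rw [map_zero]
  have h1 := ev_map φ.toAlgHom X F
  have h2 : φ (ev X F) = ev (fun v => φ (X v)) F := h1
  rw [h2]
  have h3 : (fun v => φ (X v)) = fun v => Matrix.fromBlocks (φ (X v)).toBlocks₁₁
      (φ (X v)).toBlocks₁₂ 0 (φ (X v)).toBlocks₂₂ := by
    funext v
    have h4 : (φ (X v)).toBlocks₂₁ = 0 := by
      ext i j
      show φ (X v) (Sum.inr i) (Sum.inl j) = 0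
      rw [hφ]
      apply hX
      rw [finSumFinEquiv_apply_left, finSumFinEquiv_apply_right, Fin.lt_def, Fin.val_castAdd,
        Fin.val_natAdd]
      omega
    conv_lhs => rw [← Matrix.fromBlocks_toBlocks (φ (X v)), h4]
  rw [h3]
  exact h _ _ _

theorem J_of_lower {N : ℕ} {F : List σ →₀ K}
    (h : ∀ (A : σ → Matrix (Fin 1) (Fin 1) K) (A' : σ → Matrix (Fin N) (Fin N) K)
      (C : σ → Matrix (Fin N) (Fin 1) K),
      ev (fun i => Matrix.fromBlocks (A i) 0 (C i) (A' i)) F = 0) : J (1 + N) F := by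
  intro X hX
  let e : Fin 1 ⊕ Fin N ≃ Fin (1 + N) := (finSumFinEquiv (m := 1) (n := N)).trans Fin.revPerm
  let φ : Matrix (Fin (1 + N)) (Fin (1 + N)) K ≃ₐ[K]
      Matrix (Fin 1 ⊕ Fin N) (Fin 1 ⊕ Fin N) K := Matrix.reindexAlgEquiv K K e.symm
  have hφ : ∀ M i j, φ M i j = M (Fin.rev (finSumFinEquiv i)) (Fin.rev (finSumFinEquiv j)) :=
    fun _ _ _ => rfl
  apply φ.injective
  rw [map_zero]
  have h1 := ev_map φ.toAlgHom X F
  have h2 : φ (ev X F) = ev (fun v => φ (X v)) F := h1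
  rw [h2]
  have h3 : (fun v => φ (X v)) = fun v => Matrix.fromBlocks (φ (X v)).toBlocks₁₁
      0 (φ (X v)).toBlocks₂₁ (φ (X v)).toBlocks₂₂ := by
    funext v
    have h4 : (φ (X v)).toBlocks₁₂ = 0 := by
      ext i j
      show φ (X v) (Sum.inl i) (Sum.inr j) = 0
      rw [hφ]
      apply hX
      rw [finSumFinEquiv_apply_left, finSumFinEquiv_apply_right, Fin.rev_lt_rev, Fin.lt_def,
        Fin.val_castAdd, Fin.val_natAdd]
      omega
    conv_lhs => rw [← Matrix.fromBlocks_toBlocks (φ (X v)), h4]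
  rw [h3]
  exact h _ _ _

/-- The nonconstant part. -/
theorem ev_erase {R : Type*} [Ring R] [Algebra K R] (X : σ → R) (f : FreeAlgebra K σ) :
    ev X ((W f).erase []) = FreeAlgebra.lift K X f - coef f [] • (1 : R) := by
  rw [lift_eq, eq_sub_iff_add_eq, ← W_apply]
  conv_rhs => rw [← Finsupp.erase_add_single [] (W f)]
  rw [map_add, ev_single]
  simp

end Pool.Agent.Q118.NC
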