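import Mathlib

/-!
# Polynomials which vanish on the upper triangular matrices of size `n` have at least `2 ^ n` terms
-/

set_option autoImplicit false

namespace Pool.Agent.Q118.NC

open Matrix

variable {K : Type*} [Field K] {σ : Type*}

/-- The value of a linear combination of words. -/
noncomputable def ev {R : Type*} [Semiring R] [Algebra K R] (X : σ → R) :
    (List σ →₀ K) →ₗ[K] R :=
  Finsupp.linearCombination K (fun w : List σ => (w.map X).prod)

theorem ev_single {R : Type*} [Semiring R] [Algebra K R] (X : σ → R) (w : List σ) (c : K) :
    ev X (Finsupp.single w c) = c • (w.map X).prod := by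
  rw [ev, Finsupp.linearCombination_single]

/-- `F` vanishes on the upper triangular matrices of size `n`. -/
def J (n : ℕ) (F : List σ →₀ K) : Prop :=
  ∀ X : σ → Matrix (Fin n) (Fin n) K, (∀ v i j, j < i → X v i j = 0) → ev X F = 0

/-- The words which start with `u`, without this letter. -/
noncomputable def D (u : σ) : (List σ →₀ K) →ₗ[K] (List σ →₀ K) :=
  Finsupp.lcomapDomain (fun w : List σ => u :: w) (fun _ _ h => (List.cons.inj h).2)

theorem D_apply (u : σ) (F : List σ →₀ K) (w : List σ) : D u F w = F (u :: w) := rfl

theorem D_single [DecidableEq σ] (u : σ) (w : List σ) (c : K) :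
    D u (Finsupp.single w c) =
      if w.head? = some u then Finsupp.single w.tail c else 0 := by
  ext v
  rw [D_apply]
  cases w with
  | nil => simp
  | cons a w =>
    simp only [List.head?_cons, Option.some.injEq, List.tail_cons]
    split_ifs with h
    · subst h
      simp [Finsupp.single_apply]
    · rw [Finsupp.single_apply, if_neg, Finsupp.coe_zero, Pi.zero_apply]
      intro e
      exact h (List.cons.inj e).1

/-- The matrices for the descent. -/
def up {n : ℕ} (Y : Matrix (Fin n) (Fin n) K) (b : Fin n → K) :
    Matrix (Fin (n + 1)) (Fin (n + 1)) K :=
  Matrix.of fun i j => Fin.cases 0 (fun j' => Fin.cases (b j') (fun i' => Y i' j') i) j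

theorem up_zero {n : ℕ} (Y : Matrix (Fin n) (Fin n) K) (b : Fin n → K) (i : Fin (n + 1)) :
    up Y b i 0 = 0 := rfl

theorem up_zero_succ {n : ℕ} (Y : Matrix (Fin n) (Fin n) K) (b : Fin n → K) (j : Fin n) :
    up Y b 0 j.succ = b j := rfl

theorem up_succ_succ {n : ℕ} (Y : Matrix (Fin n) (Fin n) K) (b : Fin n → K) (i j : Fin n) :
    up Y b i.succ j.succ = Y i j := rfl

theorem prod_up {n : ℕ} (Y : σ → Matrix (Fin n) (Fin n) K) (b : σ → Fin n → K) (w : List σ)
    (i j : Fin n) :
    (w.map fun v => up (Y v) (b v)).prod i.succ j.succ = (w.map Y).prod i j := by
  induction w generalizing i with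
  | nil =>
    simp only [List.map_nil, List.prod_nil]
    by_cases h : i = j
    · subst h; simp
    · rw [Matrix.one_apply_ne h, Matrix.one_apply_ne]
      intro e
      exact h (Fin.succ_injective _ e)
  | cons a w ih =>
    rw [List.map_cons, List.prod_cons, List.map_cons, List.prod_cons, Matrix.mul_apply,
      Matrix.mul_apply, Fin.sum_univ_succ, up_zero, zero_mul, zero_add]
    exact Finset.sum_congr rfl fun k _ => by rw [up_succ_succ, ih]

theorem ev_up [DecidableEq σ] {n : ℕ} (Y : σ → Matrix (Fin n) (Fin n) K) (u : σ) (k j : Fin n)
    (F : List σ →₀ K) :
    ev (fun v => up (Y v) (if v = u then Pi.single k 1 else 0)) F 0 j.succ =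
      ev Y (D u F) k j := by
  induction F using Finsupp.induction_linear with
  | zero => simp
  | add F G hF hG => simp only [map_add, Matrix.add_apply, hF, hG]
  | single w c =>
    rw [ev_single, D_single]
    cases w with
    | nil =>
      simp only [List.map_nil, List.prod_nil, Matrix.smul_apply, List.head?_nil, reduceCtorEq,
        if_false, map_zero, Matrix.zero_apply]
      rw [Matrix.one_apply_ne (Fin.succ_ne_zero j).symm, smul_zero]
    | cons a w =>
      rw [List.map_cons, List.prod_cons, Matrix.smul_apply, Matrix.mul_apply, Fin.sum_univ_succ,
        up_zero, zero_mul, zero_add]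
      simp only [List.head?_cons, Option.some.injEq, List.tail_cons]
      by_cases h : a = u
      · subst h
        have e1 : (if a = a then Finsupp.single w c else 0 : List σ →₀ K) = Finsupp.single w c :=
          if_pos rfl
        rw [e1, ev_single, Matrix.smul_apply]
        congr 1
        rw [Finset.sum_eq_single k]
        · rw [up_zero_succ, if_pos rfl, Pi.single_eq_same, one_mul, prod_up]
        · intro i _ hi
          rw [up_zero_succ, if_pos rfl, Pi.single_eq_of_ne hi, zero_mul]
        · intro h; exact absurd (Finset.mem_univ k) h
      · have e1 : (if a = u then Finsupp.single w c else 0 : List σ →₀ K) = 0 := if_neg h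
        rw [e1, map_zero, Matrix.zero_apply, Finset.sum_eq_zero, smul_zero]
        intro i _
        rw [up_zero_succ, if_neg h, Pi.zero_apply, zero_mul]

theorem J_D [DecidableEq σ] {n : ℕ} {F : List σ →₀ K} (h : J (n + 1) F) (u : σ) : J n (D u F) := by
  intro Y hY
  ext k j
  rw [← ev_up Y u k j F, h]
  · rfl
  · intro v i j hij
    refine Fin.cases (fun hij => ?_) (fun j' hij => ?_) j hij
    · exact up_zero _ _ _
    · refine Fin.cases (fun hij => ?_) (fun i' hij => ?_) i hij
      · exact absurd hij (Fin.not_lt_zero _)
      · rw [up_succ_succ]
        exact hY v i' j' (Fin.succ_lt_succ_iff.1 hij)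

/-- The constant coefficient vanishes. -/
theorem J_nil {n : ℕ} {F : List σ →₀ K} (h : J (n + 1) F) : F [] = 0 := by
  have h0 := h (fun _ => 0) (fun _ _ _ _ => rfl)
  have h1 : ∀ G : List σ →₀ K, ev (fun _ => (0 : Matrix (Fin (n + 1)) (Fin (n + 1)) K)) G =
      G [] • 1 := by
    intro G
    induction G using Finsupp.induction_linear with
    | zero => simp
    | add F G hF hG => rw [map_add, hF, hG, Finsupp.add_apply, add_smul]
    | single w c =>
      rw [ev_single]
      cases w with
      | nil => simp
      | cons a w => simp
  rw [h1] at h0
  have h2 := congrFun (congrFun h0 0) 0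
  simpa using h2

/-- A letter can be cancelled on the left. -/
theorem J_cancel [Infinite K] {n : ℕ} {F : List σ →₀ K} (u : σ) 
    (h : J n (F.mapDomain fun w => u :: w)) : J n F := by
  classical
  intro X hX
  -- the evaluation at `X + t`
  let Xp : σ → Matrix (Fin n) (Fin n) (Polynomial K) := fun v =>
    (X v).map Polynomial.C + Matrix.scalar (Fin n) Polynomial.X
  have hev : ∀ (t : K) (G : List σ →₀ K),
      (ev Xp G).map (Polynomial.eval t) = ev (fun v => X v + Matrix.scalar (Fin n) t) G := by
    intro t G
    let φ : Matrix (Fin n) (Fin n) (Polynomial K) →ₐ[K] Matrix (Fin n) (Fin n) K :=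
      (Polynomial.aeval t : Polynomial K →ₐ[K] K).mapMatrix
    have hφ : ∀ M, φ M = M.map (Polynomial.eval t) := by
      intro M
      ext i j
      simp [φ, Polynomial.coe_aeval_eq_eval]
    have hXp : ∀ v, φ (Xp v) = X v + Matrix.scalar (Fin n) t := by
      intro v
      rw [hφ]
      ext i j
      simp only [Xp, Matrix.map_apply, Matrix.add_apply, Polynomial.eval_add, Polynomial.eval_C,
        Matrix.scalar_apply]
      by_cases hij : i = j
      · subst hij; simp
      · simp [Matrix.diagonal_apply_ne _ hij]
    rw [← hφ]
    induction G using Finsupp.induction_linear with
    | zero => simp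
    | add F G hF hG => rw [map_add, map_add, hF, hG, map_add]
    | single w c =>
      rw [ev_single, ev_single, map_smul, map_list_prod, List.map_map]
      congr 2
      exact List.map_congr_left fun v _ => hXp v
  have hmul : ∀ G : List σ →₀ K, ev Xp (G.mapDomain fun w => u :: w) = Xp u * ev Xp G := by
    intro G
    induction G using Finsupp.induction_linear with
    | zero => simp
    | add F G hF hG => rw [Finsupp.mapDomain_add, map_add, hF, hG, map_add, mul_add]
    | single w c =>
      rw [Finsupp.mapDomain_single, ev_single, ev_single, List.map_cons, List.prod_cons,
        mul_smul_comm]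
  have hzero : Xp u * ev Xp F = 0 := by
    rw [← hmul]
    ext1 i j
    apply Polynomial.funext
    intro t
    have h1 := h (fun v => X v + Matrix.scalar (Fin n) t) (fun v i j hij => by
      rw [Matrix.add_apply, hX v i j hij, Matrix.scalar_apply, Matrix.diagonal_apply_ne _ hij.ne',
        add_zero])
    rw [← hev] at h1
    have h2 := congrFun (congrFun h1 i) j
    rw [Matrix.map_apply] at h2
    rw [h2]
    simp
  have hdet : (Xp u).det ≠ 0 := by
    have h1 : (Xp u) = (-(X u)).charmatrix := by
      ext1 i j
      simp only [Xp, Matrix.charmatrix, Matrix.add_apply, Matrix.sub_apply, Matrix.map_apply]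
      rw [RingHom.mapMatrix_apply, Matrix.map_apply, Matrix.neg_apply, Polynomial.C_neg,
        sub_neg_eq_add, add_comm]
    rw [h1]
    exact (Matrix.charpoly_monic (-(X u))).ne_zero
  have hF : ev Xp F = 0 := by
    have h1 := congrArg (fun M => (Xp u).adjugate * M) hzero
    simp only [← mul_assoc, Matrix.adjugate_mul, Matrix.mul_zero, Matrix.smul_mul,
      Matrix.one_mul] at h1
    ext1 i j
    have h2 := congrFun (congrFun h1 i) j
    rw [Matrix.smul_apply, Matrix.zero_apply, smul_eq_mul] at h2
    rcases mul_eq_zero.1 h2 with h3 | h3
    · exact absurd h3 hdet
    · exact h3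
  have h1 := hev 0 F
  rw [hF] at h1
  simpa using h1.symm

theorem two_pow_le [Infinite K] (n : ℕ) : ∀ F : List σ →₀ K, F ≠ 0 → J n F →
    2 ^ n ≤ F.support.card := by
  classical
  induction n with
  | zero =>
    intro F hF _
    rw [pow_zero, Nat.one_le_iff_ne_zero, Ne, Finset.card_eq_zero, Finsupp.support_eq_empty]
    exact hF
  | succ n ih =>
    have key : ∀ N : ℕ, ∀ F : List σ →₀ K, (∀ w ∈ F.support, w.length ≤ N) → F ≠ 0 →
        J (n + 1) F → 2 ^ (n + 1) ≤ F.support.card := by
      intro N
      induction N with
      | zero =>
        intro F hN hF hJ
        exfalso
        apply hF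
        ext w
        by_contra hw
        have h1 := hN w (Finsupp.mem_support_iff.2 hw)
        have h2 : w = [] := List.eq_nil_of_length_eq_zero (by omega)
        subst h2
        exact hw (J_nil hJ)
      | succ N ihN =>
        intro F hN hF hJ
        obtain ⟨w0, hw0⟩ := Finsupp.support_nonempty_iff.2 hF
        have hnil := J_nil hJ
        cases w0 with
        | nil => exact absurd hnil (Finsupp.mem_support_iff.1 hw0)
        | cons u w =>
          have hDu : D u F ≠ 0 := by
            intro h
            have := DFunLike.congr_fun h w
            rw [D_apply] at this
            exact Finsupp.mem_support_iff.1 hw0 this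
          by_cases hall : ∀ w ∈ F.support, w.head? = some u
          · -- cancel `u`
            have hFu : F = (D u F).mapDomain fun w => u :: w := by
              ext v
              cases v with
              | nil =>
                rw [hnil, Finsupp.mapDomain_of_notMem_range]
                rintro ⟨w, hw⟩
                exact absurd hw (by simp)
              | cons a v =>
                by_cases ha : a = u
                · subst ha
                  rw [Finsupp.mapDomain_apply (fun _ _ h => (List.cons.inj h).2), D_apply]
                · rw [Finsupp.mapDomain_of_notMem_range]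
                  · by_contra hne
                    have := hall _ (Finsupp.mem_support_iff.2 hne)
                    simp only [List.head?_cons, Option.some.injEq] at this
                    exact ha this
                  · rintro ⟨w, hw⟩
                    exact ha (List.cons.inj hw).1.symm
            have hcard : F.support.card = (D u F).support.card := by
              conv_lhs => rw [hFu]
              rw [Finsupp.mapDomain_support_of_injective (fun _ _ h => (List.cons.inj h).2),
                Finset.card_image_of_injective _ (fun _ _ h => (List.cons.inj h).2)]
            rw [hcard]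
            apply ihN (D u F) _ hDu
            · apply J_cancel u
              rw [← hFu]
              exact hJ
            · intro w hw
              have h1 : u :: w ∈ F.support := by
                rw [Finsupp.mem_support_iff] at hw ⊢
                exact hw
              have := hN _ h1
              rw [List.length_cons] at this
              omega
          · push Not at hall
            obtain ⟨w1, hw1, hw1u⟩ := hall
            cases w1 with
            | nil => exact absurd hnil (Finsupp.mem_support_iff.1 hw1)
            | cons v w1 =>
              have huv : v ≠ u := by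
                rintro rfl
                simp at hw1u
              have hDv : D v F ≠ 0 := by
                intro h
                have := DFunLike.congr_fun h w1
                rw [D_apply] at this
                exact Finsupp.mem_support_iff.1 hw1 this
              have c1 := ih _ hDu (J_D hJ u)
              have c2 := ih _ hDv (J_D hJ v)
              have inj : ∀ a : σ, Function.Injective (fun w : List σ => a :: w) :=
                fun a _ _ h => (List.cons.inj h).2
              have hsub : ((D u F).support.image fun w => u :: w) ∪
                  ((D v F).support.image fun w => v :: w) ⊆ F.support := by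
                intro w hw
                rw [Finset.mem_union, Finset.mem_image, Finset.mem_image] at hw
                rcases hw with ⟨w', hw', rfl⟩ | ⟨w', hw', rfl⟩ <;>
                · rw [Finsupp.mem_support_iff] at hw' ⊢
                  exact hw'
              have hdis : Disjoint ((D u F).support.image fun w => u :: w)
                  ((D v F).support.image fun w => v :: w) := by
                rw [Finset.disjoint_left]
                intro w h1 h2
                rw [Finset.mem_image] at h1 h2
                obtain ⟨w', -, rfl⟩ := h1
                obtain ⟨w'', -, h3⟩ := h2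
                exact huv (List.cons.inj h3).1
              have := Finset.card_le_card hsub
              rw [Finset.card_union_of_disjoint hdis, Finset.card_image_of_injective _ (inj u),
                Finset.card_image_of_injective _ (inj v)] at this
              rw [pow_succ]
              omega
    intro F hF hJ
    exact key (F.support.sup List.length) F (fun w hw => Finset.le_sup hw) hF hJ

end Pool.Agent.Q118.NC
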