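import Pool.Agent.Q118.NC.Terms

/-!
# Multihomogeneous components and the free algebra
-/

set_option autoImplicit false

namespace Pool.Agent.Q118.NC

open Matrix

variable {K : Type*} [Field K] {σ : Type*}

theorem list_prod_monomial [DecidableEq σ] (w : List σ) :
    (w.map (MvPolynomial.X : σ → MvPolynomial σ K)).prod =
      MvPolynomial.monomial (Multiset.toFinsupp (w : Multiset σ)) 1 := by
  induction w with
  | nil => simp
  | cons a w ih =>
    rw [List.map_cons, List.prod_cons, ih, MvPolynomial.X, MvPolynomial.monomial_mul, one_mul,
      ← Multiset.cons_coe, ← Multiset.singleton_add, map_add, Multiset.toFinsupp_singleton]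

open Classical in
/-- The multihomogeneous components vanish as well. -/
theorem J_filter [Infinite K] {n : ℕ} {F : List σ →₀ K} (h : J n F) (l : List σ) :
    J n (F.filter fun w => w.Perm l) := by
  intro X hX
  let Xp : σ → Matrix (Fin n) (Fin n) (MvPolynomial σ K) := fun v =>
    (MvPolynomial.X v : MvPolynomial σ K) • (X v).map (MvPolynomial.C : K →+* MvPolynomial σ K)
  have hword : ∀ w : List σ, (w.map Xp).prod =
      (w.map (MvPolynomial.X : σ → MvPolynomial σ K)).prod •
        ((w.map X).prod.map (MvPolynomial.C : K →+* MvPolynomial σ K)) := by
    intro w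
    induction w with
    | nil =>
      simp only [List.map_nil, List.prod_nil, one_smul]
      rw [Matrix.map_one _ (map_zero _) (map_one _)]
    | cons a w ih =>
      simp only [List.map_cons, List.prod_cons]
      rw [ih]
      simp only [Xp]
      rw [Matrix.map_mul, Matrix.smul_mul, Matrix.mul_smul, smul_smul]
  -- the coefficients
  have hco : ∀ (G : List σ →₀ K) (i j : Fin n),
      MvPolynomial.coeff (Multiset.toFinsupp (l : Multiset σ)) (ev Xp G i j) =
        ev X (G.filter fun w => w.Perm l) i j := by
    intro G i j
    induction G using Finsupp.induction_linear with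
    | zero =>
      rw [map_zero, Finsupp.filter_zero, map_zero]
      rfl
    | add F G hF hG =>
      rw [map_add, Matrix.add_apply, MvPolynomial.coeff_add, hF, hG, Finsupp.filter_add, map_add,
        Matrix.add_apply]
    | single w c =>
      rw [ev_single, hword, list_prod_monomial, Matrix.smul_apply, Matrix.smul_apply,
        Matrix.map_apply, MvPolynomial.coeff_smul, smul_eq_mul (a := MvPolynomial.monomial _ _),
        mul_comm (MvPolynomial.monomial _ _), MvPolynomial.coeff_C_mul, MvPolynomial.coeff_monomial]
      by_cases hw : w.Perm l
      · have e1 : (Finsupp.single w c).filter (fun w => w.Perm l) = Finsupp.single w c :=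
          Finsupp.filter_single_of_pos (fun w : List σ => w.Perm l) hw
        rw [e1, ev_single, Matrix.smul_apply, if_pos, mul_one]
        rw [Multiset.coe_eq_coe.2 hw]
      · have e1 : (Finsupp.single w c).filter (fun w => w.Perm l) = 0 :=
          Finsupp.filter_single_of_neg (fun w : List σ => w.Perm l) hw
        rw [e1, map_zero, Matrix.zero_apply, if_neg, mul_zero, smul_zero]
        intro e
        exact hw (Multiset.coe_eq_coe.1 (Multiset.toFinsupp.injective e))
  ext i j
  rw [← hco]
  have hz : ev Xp F i j = 0 := by
    apply MvPolynomial.funext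
    intro s
    have h1 : ∀ G : List σ →₀ K, MvPolynomial.eval s (ev Xp G i j) =
        ev (fun v => s v • X v) G i j := by
      intro G
      induction G using Finsupp.induction_linear with
      | zero => simp
      | add F G hF hG =>
        rw [map_add, Matrix.add_apply, map_add, hF, hG, map_add, Matrix.add_apply]
      | single w c =>
        rw [ev_single, ev_single, hword, Matrix.smul_apply, Matrix.smul_apply, Matrix.map_apply,
          Matrix.smul_apply, MvPolynomial.smul_eval, smul_eq_mul (a := (List.map _ w).prod),
          map_mul, MvPolynomial.eval_C]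
        have h2 : (w.map fun v => s v • X v).prod = (w.map s).prod • (w.map X).prod := by
          induction w with
          | nil => simp
          | cons a w ih =>
            simp only [List.map_cons, List.prod_cons]
            rw [ih, Matrix.smul_mul, Matrix.mul_smul, smul_smul]
        rw [h2, Matrix.smul_apply, smul_eq_mul, smul_eq_mul, map_list_prod, List.map_map]
        congr 3
        exact List.map_congr_left fun v _ => by simp
    rw [h1, map_zero, h (fun v => s v • X v) (fun v i j hij => by
      rw [Matrix.smul_apply, hX v i j hij, smul_zero])]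
    rfl
  rw [hz]
  simp

/-- The coefficient of the word `l` in `f`. -/
noncomputable def coef (f : FreeAlgebra K σ) (l : List σ) : K :=
  (FreeAlgebra.equivMonoidAlgebraFreeMonoid f).coeff (FreeMonoid.ofList l)

/-- All coefficients. -/
noncomputable def W (f : FreeAlgebra K σ) : List σ →₀ K :=
  (FreeAlgebra.equivMonoidAlgebraFreeMonoid f).coeff.equivMapDomain FreeMonoid.toList

theorem W_apply (f : FreeAlgebra K σ) (l : List σ) : W f l = coef f l := by
  rw [W, Finsupp.equivMapDomain_apply]
  rfl

theorem W_add (f g : FreeAlgebra K σ) : W (f + g) = W f + W g := by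
  ext l
  rw [Finsupp.add_apply, W_apply, W_apply, W_apply, coef, coef, coef, map_add,
    MonoidAlgebra.coeff_add, Finsupp.add_apply]

theorem W_smul (c : K) (f : FreeAlgebra K σ) : W (c • f) = c • W f := by
  ext l
  rw [Finsupp.smul_apply, W_apply, W_apply, coef, coef, map_smul,
    MonoidAlgebra.coeff_smul, Finsupp.smul_apply]

theorem W_word (w : List σ) : W ((w.map (FreeAlgebra.ι K)).prod) = Finsupp.single w 1 := by
  classical
  have h : FreeAlgebra.equivMonoidAlgebraFreeMonoid ((w.map (FreeAlgebra.ι K)).prod) =
      MonoidAlgebra.single (FreeMonoid.ofList w) (1 : K) := by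
    rw [map_list_prod, List.map_map]
    induction w with
    | nil => rfl
    | cons a w ih =>
      rw [List.map_cons, List.prod_cons, ih]
      have h1 : (FreeAlgebra.equivMonoidAlgebraFreeMonoid ∘ FreeAlgebra.ι K) a =
          MonoidAlgebra.single (FreeMonoid.of a) (1 : K) := by
        simp [FreeAlgebra.equivMonoidAlgebraFreeMonoid]
      rw [h1, MonoidAlgebra.single_mul_single, one_mul]
      rfl
  ext l
  rw [W_apply, coef, h, MonoidAlgebra.coeff_single, Finsupp.single_apply, Finsupp.single_apply]
  exact if_congr (FreeMonoid.ofList.injective.eq_iff) rfl rfl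

theorem W_injective : Function.Injective (W (K := K) (σ := σ)) := by
  intro f g h
  apply FreeAlgebra.equivMonoidAlgebraFreeMonoid.injective
  apply MonoidAlgebra.coeff_injective
  ext l
  have := DFunLike.congr_fun h (FreeMonoid.toList l)
  rw [W_apply, W_apply] at this
  exact this

theorem W_ev (F : List σ →₀ K) : W (ev (FreeAlgebra.ι K) F) = F := by
  induction F using Finsupp.induction_linear with
  | zero =>
    rw [map_zero]
    ext l
    rw [W_apply, coef, map_zero]
    rfl
  | add F G hF hG => rw [map_add, W_add, hF, hG]
  | single w c => rw [ev_single, W_smul, W_word, Finsupp.smul_single, smul_eq_mul, mul_one]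

theorem lift_eq {R : Type*} [Ring R] [Algebra K R] (X : σ → R) (f : FreeAlgebra K σ) :
    FreeAlgebra.lift K X f = ev X (W f) := by
  have h1 : ev (FreeAlgebra.ι K) (W f) = f := W_injective (W_ev _)
  conv_lhs => rw [← h1]
  generalize W f = F
  induction F using Finsupp.induction_linear with
  | zero => simp
  | add F G hF hG => rw [map_add, map_add, hF, hG, map_add]
  | single w c =>
    rw [ev_single, ev_single, map_smul, map_list_prod, List.map_map]
    congr 2
    exact List.map_congr_left fun v _ => by simp

end Pool.Agent.Q118.NC
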